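import Mathlib

set_option autoImplicit false
open Polynomial Filter Topology

namespace Pool.Agent.H.MP_192f66_nt

variable (p : ℕ) [Fact p.Prime]

lemma card_lt (n : ℕ) : Nat.card (degreeLT (ZMod p) n) = p ^ n := by
  rw [Nat.card_congr (degreeLTEquiv (ZMod p) n).toEquiv]
  simp [Nat.card_eq_fintype_card, ZMod.card]

lemma fin_lt (n : ℕ) : ((degreeLT (ZMod p) n : Set (ZMod p)[X])).Finite := by
  have : Finite (degreeLT (ZMod p) n) := Finite.of_equiv _ (degreeLTEquiv (ZMod p) n).toEquiv.symm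
  exact Set.toFinite _

noncomputable def A (n : ℕ) : Finset (ZMod p)[X] := (fin_lt p n).toFinset

lemma mem_A (n : ℕ) (f : (ZMod p)[X]) : f ∈ A p n ↔ f.degree < n := by
  simp [A, mem_degreeLT]

lemma card_A (n : ℕ) : (A p n).card = p ^ n := by
  rw [← card_lt p n, A, ← Set.ncard_eq_toFinset_card _ (fin_lt p n)]
  rfl

lemma root (e : ℕ) (he : e ∣ p - 1) : ∃ z : (ZMod p)ˣ, orderOf z = e := by
  have h : e ∣ Nat.card (ZMod p)ˣ := by
    rw [Nat.card_eq_fintype_card, ZMod.card_units]; exact he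
  obtain ⟨g, hg⟩ := IsCyclic.exists_ofOrder_eq_natCard (α := (ZMod p)ˣ)
  obtain ⟨c, hc⟩ := h
  have hpos : 0 < Nat.card (ZMod p)ˣ := Nat.card_pos
  have hc0 : c ≠ 0 := by rintro rfl; rw [hc, mul_zero] at hpos; exact lt_irrefl _ hpos
  refine ⟨g ^ c, ?_⟩
  rw [orderOf_pow_of_dvd hc0 (by rw [hg, hc]; exact Dvd.intro_left _ rfl), hg, hc]
  exact Nat.mul_div_cancel _ (Nat.pos_of_ne_zero hc0)

open Classical in
lemma card_S (k e n : ℕ) (hek : e ∣ k) (he : e ∣ p - 1) :
    e * (((A p n).erase 0).image (fun g => g ^ k)).card ≤ p ^ n := by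
  obtain ⟨z, hz⟩ := root p e he
  refine le_trans (Finset.mul_card_image_le_card _ _ ?_) ?_
  · intro b hb
    obtain ⟨g, hg, rfl⟩ := Finset.mem_image.1 hb
    have hg0 := (Finset.mem_erase.1 hg).1
    have hgA := (mem_A p n g).1 (Finset.mem_erase.1 hg).2
    have hzk : ((z : ZMod p)) ^ k = 1 := by
      have : z ^ k = 1 := orderOf_dvd_iff_pow_eq_one.1 (hz ▸ hek)
      rw [← Units.val_pow_eq_pow_val, this, Units.val_one]
    have := Finset.card_le_card_of_injOn (s := Finset.range e)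
      (t := ((A p n).erase 0).filter (fun a => a ^ k = g ^ k))
      (fun i => C ((z : ZMod p) ^ i) * g) ?_ ?_
    · simpa using this
    · intro i _
      have hne : (z : ZMod p) ^ i ≠ 0 := pow_ne_zero _ z.ne_zero
      simp only [Finset.coe_filter, Set.mem_ofPred_eq, Finset.mem_erase, mem_A]
      refine ⟨⟨mul_ne_zero (C_ne_zero.2 hne) hg0, ?_⟩, ?_⟩
      · rwa [degree_C_mul hne]
      · rw [mul_pow, ← C_pow, ← pow_mul, mul_comm i k, pow_mul, hzk, one_pow, C_1, one_mul]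
    · intro i hi j hj hij
      have h1 := C_injective (mul_right_cancel₀ hg0 hij)
      have h2 : z ^ i = z ^ j := Units.ext (by simpa using h1)
      exact pow_injOn_Iio_orderOf (x := z) (by simpa [hz] using hi) (by simpa [hz] using hj) h2
  · rw [← card_A p n]; exact Finset.card_erase_le

open Classical in
lemma count (k m : ℕ) (hk : 1 ≤ k) (S : Finset (ZMod p)[X]) (h0 : (0 : (ZMod p)[X]) ∈ S)
    (h : ∀ f : (ZMod p)[X], f.degree = (k * m : ℕ) → ∃ r ≤ k, ∃ g : Fin r → (ZMod p)[X],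
      (∀ i, g i ∈ S) ∧ f = ∑ i, g i) :
    p ^ (k * m + 1) - p ^ (k * m) ≤ (S.card + k - 1).choose k := by
  have hsub : A p (k * m) ⊆ A p (k * m + 1) := by
    intro f hf
    rw [mem_A] at hf ⊢
    exact lt_trans hf (by exact_mod_cast Nat.lt_succ_self _)
  rw [← card_A, ← card_A, ← Finset.card_sdiff_of_subset hsub, ← Nat.multichoose_eq,
    ← Fintype.card_coe S, ← Sym.card_sym_eq_multichoose, ← Finset.card_univ]
  refine Finset.card_le_card_of_surjOn (fun u : Sym S k => (u.1.map Subtype.val).sum) ?_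
  intro f hf
  simp only [Finset.coe_sdiff, Set.mem_sdiff, Finset.mem_coe, mem_A] at hf
  have hd : f.degree = (k * m : ℕ) := by
    have hf0 : f ≠ 0 := by
      rintro rfl
      exact hf.2 (by rw [degree_zero]; exact WithBot.bot_lt_coe _)
    rw [degree_eq_natDegree hf0] at hf ⊢
    have h1 : f.natDegree < k * m + 1 := by exact_mod_cast hf.1
    have h2 : ¬ f.natDegree < k * m := fun hh => hf.2 (by exact_mod_cast hh)
    have : f.natDegree = k * m := by omega
    rw [this]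
  obtain ⟨r, hr, g, hg, rfl⟩ := h f hd
  refine ⟨⟨(Finset.univ.val.map (fun i => (⟨g i, hg i⟩ : S))) +
    Multiset.replicate (k - r) ⟨0, h0⟩, by simp; omega⟩, by simp, ?_⟩
  simp [List.sum_ofFn]

lemma asym (k e : ℕ) (he : 0 < e) (h : p ^ k < e ^ k * k.factorial * (p - 1)) :
    ∀ᶠ m : ℕ in atTop, ((p : ℝ) ^ (m + 1) / e + k) ^ k / k.factorial
      < (p : ℝ) ^ (k * m + 1) - (p : ℝ) ^ (k * m) := by
  have hp : (1 : ℝ) < p := by exact_mod_cast (Fact.out : p.Prime).one_lt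
  have hp1 : 1 ≤ p := (Fact.out : p.Prime).one_lt.le
  have he' : (0 : ℝ) < e := by exact_mod_cast he
  have hf : (0 : ℝ) < k.factorial := by exact_mod_cast k.factorial_pos
  have h' : (p : ℝ) ^ k < (e : ℝ) ^ k * k.factorial * ((p : ℝ) - 1) := by
    have : ((p ^ k : ℕ) : ℝ) < ((e ^ k * k.factorial * (p - 1) : ℕ) : ℝ) := by exact_mod_cast h
    push_cast [Nat.cast_sub hp1] at this
    exact this
  have hlim : Tendsto (fun m : ℕ => ((p : ℝ) / e + k * ((p : ℝ)⁻¹) ^ m) ^ k) atTop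
      (𝓝 (((p : ℝ) / e + k * 0) ^ k)) :=
    (tendsto_const_nhds.add (tendsto_const_nhds.mul
      (tendsto_pow_atTop_nhds_zero_of_lt_one (by positivity) (inv_lt_one_of_one_lt₀ hp)))).pow k
  have hlt : ((p : ℝ) / e + k * 0) ^ k < k.factorial * ((p : ℝ) - 1) := by
    rw [mul_zero, add_zero, div_pow, div_lt_iff₀ (by positivity)]
    linarith
  filter_upwards [hlim.eventually (gt_mem_nhds hlt)] with m hm
  have hpm : (0 : ℝ) < (p : ℝ) ^ m := by positivity
  have e1 : (p : ℝ) ^ (m + 1) / e + k = ((p : ℝ) / e + k * ((p : ℝ)⁻¹) ^ m) * (p : ℝ) ^ m := by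
    rw [inv_pow]; field_simp; ring
  rw [e1, mul_pow, div_lt_iff₀ hf, ← pow_mul, mul_comm m k, pow_succ]
  have hq : (0 : ℝ) < (p : ℝ) ^ (k * m) := by positivity
  nlinarith [mul_lt_mul_of_pos_right hm hq]

open Classical in
theorem main (k e : ℕ) (hk : 1 ≤ k) (hek : e ∣ k) (he : e ∣ p - 1)
    (h : p ^ k < e ^ k * k.factorial * (p - 1)) (s : ℕ)
    (hs : ∃ d0 : ℕ, ∀ d : ℕ, d0 ≤ d → ∀ f : (ZMod p)[X], f.degree = d →
      ∃ r ≤ s, ∃ g : Fin r → (ZMod p)[X],
        (∀ i, k * (g i).natDegree < d + k) ∧ f = ∑ i, g i ^ k) : k + 1 ≤ s := by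
  by_contra hlt
  have hsk : s ≤ k := by omega
  obtain ⟨d0, hd⟩ := hs
  have he0 : 0 < e := Nat.pos_of_dvd_of_pos hek hk
  obtain ⟨m, hm, hm0⟩ := ((asym p k e he0 h).and (eventually_ge_atTop d0)).exists
  set T := ((A p (m + 1)).erase 0).image (fun g => g ^ k) with hT
  have hc := count p k m hk (insert 0 T) (Finset.mem_insert_self _ _) (fun f hf => by
    obtain ⟨r, hr, g, hg, rfl⟩ := hd (k * m) (le_trans hm0 (Nat.le_mul_of_pos_left _ hk)) f hf
    refine ⟨r, hr.trans hsk, fun i => g i ^ k, fun i => ?_, rfl⟩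
    by_cases h0 : g i = 0
    · simp only [h0]
      rw [zero_pow (by omega)]
      exact Finset.mem_insert_self _ _
    · refine Finset.mem_insert_of_mem (Finset.mem_image.2 ⟨g i, Finset.mem_erase.2 ⟨h0, ?_⟩, rfl⟩)
      rw [mem_A, degree_eq_natDegree h0]
      have h1 : k * (g i).natDegree < k * (m + 1) := by have := hg i; rw [mul_add, mul_one]; exact this
      exact_mod_cast lt_of_mul_lt_mul_left h1 (Nat.zero_le _))
  have hS := card_S p k e (m + 1) hek he
  rw [← hT] at hS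
  have he' : (0 : ℝ) < e := by exact_mod_cast he0
  have h1 : (T.card : ℝ) ≤ (p : ℝ) ^ (m + 1) / e := by
    rw [le_div_iff₀ he', mul_comm]; exact_mod_cast hS
  have h2 : (insert 0 T).card + k - 1 ≤ T.card + k := by
    have := Finset.card_insert_le (0 : (ZMod p)[X]) T
    omega
  have h3 : (((T.card + k).choose k : ℕ) : ℝ) ≤ ((T.card + k : ℕ) : ℝ) ^ k / k.factorial := by
    exact_mod_cast Nat.choose_le_pow_div (α := ℝ) k (T.card + k)
  have h4 := hc.trans (Nat.choose_le_choose k h2)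
  have hp1 : 1 ≤ p := (Fact.out : p.Prime).one_lt.le
  have h5 : (p : ℝ) ^ (k * m + 1) - (p : ℝ) ^ (k * m) ≤ (((T.card + k).choose k : ℕ) : ℝ) := by
    have : ((p ^ (k * m + 1) - p ^ (k * m) : ℕ) : ℝ) ≤ (((T.card + k).choose k : ℕ) : ℝ) := by
      exact_mod_cast h4
    rw [Nat.cast_sub (Nat.pow_le_pow_right hp1 (Nat.le_succ _))] at this
    exact_mod_cast this
  have h6 : ((T.card + k : ℕ) : ℝ) ^ k / k.factorial ≤ ((p : ℝ) ^ (m + 1) / e + k) ^ k / k.factorial := by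
    push_cast
    gcongr
  linarith

lemma three (k : ℕ) : k ^ k ≤ 3 ^ k * k.factorial := by
  have h1 := Real.pow_div_factorial_le_exp (k : ℝ) (Nat.cast_nonneg k) k
  have h2 : Real.exp k ≤ 3 ^ k := by
    rw [← Real.exp_one_pow]
    exact pow_le_pow_left₀ (Real.exp_pos 1).le (le_of_lt (lt_trans Real.exp_one_lt_d9 (by norm_num))) k
  have hf : (0 : ℝ) < k.factorial := by exact_mod_cast k.factorial_pos
  rw [div_le_iff₀ hf] at h1
  have : (k : ℝ) ^ k ≤ 3 ^ k * k.factorial := h1.trans (by gcongr)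
  exact_mod_cast this

lemma cond6 (k e : ℕ) (hk : 1 ≤ k) (hp : p < 2 * k) (he : 6 ≤ e) :
    p ^ k < e ^ k * k.factorial * (p - 1) := by
  have hp1 : 1 ≤ p - 1 := by have := (Fact.out : p.Prime).two_le; omega
  calc p ^ k < (2 * k) ^ k := Nat.pow_lt_pow_left hp (by omega)
    _ = 2 ^ k * k ^ k := mul_pow _ _ _
    _ ≤ 2 ^ k * (3 ^ k * k.factorial) := Nat.mul_le_mul_left _ (three k)
    _ = 6 ^ k * k.factorial * 1 := by rw [← mul_assoc, ← mul_pow]; norm_num
    _ ≤ e ^ k * k.factorial * (p - 1) := by gcongr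

lemma condk (k : ℕ) (hk : 2 ≤ k) : (k + 1) ^ k < k ^ k * k.factorial * k := by
  have h1 : 2 ^ (k - 1) ≤ k.factorial := by
    obtain ⟨j, rfl⟩ : ∃ j, k = j + 1 := ⟨k - 1, by omega⟩
    have := Nat.factorial_mul_pow_le_factorial (m := 1) (n := j)
    simpa [add_comm] using this
  have h2 : 2 ^ k ≤ k.factorial * k := by
    obtain ⟨j, rfl⟩ : ∃ j, k = j + 1 := ⟨k - 1, by omega⟩
    rw [pow_succ]
    exact Nat.mul_le_mul (by simpa using h1) hk
  calc (k + 1) ^ k < (k * 2) ^ k := Nat.pow_lt_pow_left (by omega) (by omega)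
    _ = k ^ k * 2 ^ k := mul_pow _ _ _
    _ ≤ k ^ k * (k.factorial * k) := Nat.mul_le_mul_left _ h2
    _ = _ := by ring

end Pool.Agent.H.MP_192f66_nt
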